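import Mathlib

/-!
# Counting inside one ordered block and between two blocks

`o : V → ℕ` orders a finite set `s`, `later o s u` is the set of the points of `s` after `u`, and
`X o s u = |later o s u| + 1`.
-/

namespace H76AS

open Finset

variable {V : Type*}

/-- the points of `s` after `u` -/
def later (o : V → ℕ) (s : Finset V) (u : V) : Finset V := s.filter (fun x => o u < o x)

/-- number of points from `u` on, `u` included -/
noncomputable def X (o : V → ℕ) (s : Finset V) (u : V) : ℝ := ((later o s u).card : ℝ) + 1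

theorem one_le_X (o : V → ℕ) (s : Finset V) (u : V) : 1 ≤ X o s u := by
  unfold X
  have : (0 : ℝ) ≤ ((later o s u).card : ℝ) := Nat.cast_nonneg _
  linarith

variable [DecidableEq V]

theorem ind_min (o : V → ℕ) {p : Finset V → Prop} (h0 : p ∅)
    (step : ∀ (a : V) (s : Finset V), a ∉ s → (∀ x ∈ s, o a < o x) → Set.InjOn o (s : Set V) →
      p s → p (insert a s)) :
    ∀ s : Finset V, Set.InjOn o (s : Set V) → p s := by
  intro s
  induction s using Finset.strongInduction with
  | H s ih =>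
    intro inj
    rcases s.eq_empty_or_nonempty with rfl | hne
    · exact h0
    · obtain ⟨a, ha, hmin⟩ := exists_min_image s o hne
      have hs : Set.InjOn o ((s.erase a : Finset V) : Set V) :=
        inj.mono (by intro x hx; exact mem_coe.2 (mem_of_mem_erase (mem_coe.1 hx)))
      have h1 := ih (s.erase a) (erase_ssubset ha) hs
      have h2 := step a (s.erase a) (notMem_erase a s) (fun x hx => by
        rcases lt_or_eq_of_le (hmin x (mem_of_mem_erase hx)) with h | h
        · exact h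
        · exact absurd (inj (mem_coe.2 ha) (mem_coe.2 (mem_of_mem_erase hx)) h).symm
            (ne_of_mem_erase hx)) hs h1
      rwa [insert_erase ha] at h2

theorem later_insert_self {o : V → ℕ} {a : V} {s : Finset V} (h : ∀ x ∈ s, o a < o x) :
    later o (insert a s) a = s := by
  ext x
  simp only [later, mem_filter, mem_insert]
  constructor
  · rintro ⟨rfl | hx, h1⟩
    · exact absurd h1 (lt_irrefl _)
    · exact hx
  · intro hx
    exact ⟨Or.inr hx, h x hx⟩

theorem later_insert_of_mem {o : V → ℕ} {a : V} {s : Finset V} (h : ∀ x ∈ s, o a < o x) {u : V}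
    (hu : u ∈ s) : later o (insert a s) u = later o s u := by
  ext x
  simp only [later, mem_filter, mem_insert]
  constructor
  · rintro ⟨rfl | hx, h1⟩
    · exact absurd h1 (not_lt_of_gt (h u hu))
    · exact ⟨hx, h1⟩
  · rintro ⟨hx, h1⟩
    exact ⟨Or.inr hx, h1⟩

omit [DecidableEq V] in
theorem later_later {o : V → ℕ} {s : Finset V} {u v : V} (h : o u < o v) :
    later o (later o s u) v = later o s v := by
  ext x
  simp only [later, mem_filter]
  constructor
  · rintro ⟨⟨hx, _⟩, h1⟩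
    exact ⟨hx, h1⟩
  · rintro ⟨hx, h1⟩
    exact ⟨⟨hx, lt_trans h h1⟩, h1⟩

/-- sum over ordered pairs of a symmetric function -/
theorem pair_sum (o : V → ℕ) (s : Finset V) (inj : Set.InjOn o (s : Set V)) (h : V → V → ℝ)
    (hs : ∀ x y, h x y = h y x) :
    ∑ x ∈ s, ∑ y ∈ s, h x y = ∑ x ∈ s, (h x x + 2 * ∑ y ∈ later o s x, h x y) := by
  revert inj
  refine ind_min o (p := fun s => ∑ x ∈ s, ∑ y ∈ s, h x y
    = ∑ x ∈ s, (h x x + 2 * ∑ y ∈ later o s x, h x y)) (by simp) ?_ s
  intro a s ha hmin _ ih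
  rw [sum_insert ha, sum_insert ha, sum_insert ha, later_insert_self hmin]
  have h1 : ∑ x ∈ s, ∑ y ∈ insert a s, h x y = ∑ x ∈ s, h a x + ∑ x ∈ s, ∑ y ∈ s, h x y := by
    rw [← sum_add_distrib]
    refine sum_congr rfl (fun x _ => by rw [sum_insert ha, hs])
  have h2 : ∑ x ∈ s, (h x x + 2 * ∑ y ∈ later o (insert a s) x, h x y)
      = ∑ x ∈ s, (h x x + 2 * ∑ y ∈ later o s x, h x y) :=
    sum_congr rfl (fun x hx => by rw [later_insert_of_mem hmin hx])
  rw [h1, h2, ih]
  ring

theorem sum_one_pairs (o : V → ℕ) (s : Finset V) (inj : Set.InjOn o (s : Set V)) :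
    (s.card : ℝ) ^ 2 = ∑ v ∈ s, (2 * X o s v - 1) := by
  have h := pair_sum o s inj (fun _ _ => 1) (fun _ _ => rfl)
  simp only [sum_const, nsmul_eq_mul, mul_one] at h
  rw [pow_two, h]
  refine sum_congr rfl (fun v _ => by unfold X; ring)

/-- the values of `X` on a block are `1, …, |s|` -/
theorem sum_X (o : V → ℕ) (s : Finset V) (inj : Set.InjOn o (s : Set V)) (φ : ℝ → ℝ) :
    ∑ v ∈ s, φ (X o s v) = ∑ x ∈ range s.card, φ ((x : ℝ) + 1) := by
  revert inj
  refine ind_min o (p := fun s => ∑ v ∈ s, φ (X o s v)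
    = ∑ x ∈ range s.card, φ ((x : ℝ) + 1)) (by simp) ?_ s
  intro a s ha hmin _ ih
  rw [sum_insert ha, card_insert_of_notMem ha, sum_range_succ, ← ih]
  have h1 : X o (insert a s) a = (s.card : ℝ) + 1 := by
    unfold X; rw [later_insert_self hmin]
  have h2 : ∑ v ∈ s, φ (X o (insert a s) v) = ∑ v ∈ s, φ (X o s v) :=
    sum_congr rfl (fun v hv => by unfold X; rw [later_insert_of_mem hmin hv])
  rw [h1, h2]
  ring

/-- symmetric `{0,1}`-type weights on triples, `1` on degenerate triples -/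
structure Wt (g : V → V → V → ℝ) : Prop where
  s12 : ∀ x y z, g x y z = g y x z
  s23 : ∀ x y z, g x y z = g x z y
  deg : ∀ x y, g x x y = 1
  nn : ∀ x y z, 0 ≤ g x y z

omit [DecidableEq V] in
theorem Wt.deg' {g : V → V → V → ℝ} (hg : Wt g) (x y : V) : g x y y = 1 := by
  rw [hg.s12, hg.s23, hg.deg]

/-- ordered triples of one block, grouped by the first element -/
theorem triple_sum {g : V → V → V → ℝ} (hg : Wt g) (o : V → ℕ) (s : Finset V)
    (inj : Set.InjOn o (s : Set V)) :
    (s.card : ℝ) ^ 3 + ∑ x ∈ s, ∑ y ∈ s, ∑ z ∈ s, g x y z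
      = ∑ u ∈ s, (3 * X o s u ^ 2 - 1 + 3 * ∑ v ∈ later o s u, ∑ w ∈ later o s u, g u v w) := by
  revert inj
  refine ind_min o (p := fun s => (s.card : ℝ) ^ 3 + ∑ x ∈ s, ∑ y ∈ s, ∑ z ∈ s, g x y z
      = ∑ u ∈ s, (3 * X o s u ^ 2 - 1 + 3 * ∑ v ∈ later o s u, ∑ w ∈ later o s u, g u v w))
      (by simp) ?_ s
  intro a s ha hmin _ ih
  have e1 : ∀ x ∈ s, ∑ y ∈ insert a s, ∑ z ∈ insert a s, g x y z
      = 1 + 2 * ∑ y ∈ s, g a x y + ∑ y ∈ s, ∑ z ∈ s, g x y z := by
    intro x hx
    rw [sum_insert ha, sum_insert ha, hg.deg']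
    have h1 : ∑ y ∈ s, ∑ z ∈ insert a s, g x y z
        = ∑ y ∈ s, g a x y + ∑ y ∈ s, ∑ z ∈ s, g x y z := by
      rw [← sum_add_distrib]
      refine sum_congr rfl (fun y _ => ?_)
      rw [sum_insert ha, hg.s23 x y a, hg.s12 x a y]
    have h2 : ∑ z ∈ s, g x a z = ∑ z ∈ s, g a x z := sum_congr rfl (fun z _ => hg.s12 _ _ _)
    rw [h1, h2]
    ring
  have e2 : ∑ y ∈ insert a s, ∑ z ∈ insert a s, g a y z
      = 1 + 2 * (s.card : ℝ) + ∑ y ∈ s, ∑ z ∈ s, g a y z := by
    rw [sum_insert ha, sum_insert ha, hg.deg]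
    have h1 : ∑ z ∈ s, g a a z = (s.card : ℝ) := by
      rw [sum_congr rfl (fun z _ => hg.deg a z)]; simp
    have h2 : ∑ y ∈ s, ∑ z ∈ insert a s, g a y z
        = (s.card : ℝ) + ∑ y ∈ s, ∑ z ∈ s, g a y z := by
      rw [← h1, ← sum_add_distrib]
      refine sum_congr rfl (fun y _ => ?_)
      rw [sum_insert ha, hg.s23 a y a]
    rw [h1, h2]
    ring
  have e3 : ∑ x ∈ s, ∑ y ∈ insert a s, ∑ z ∈ insert a s, g x y z
      = (s.card : ℝ) + 2 * ∑ x ∈ s, ∑ y ∈ s, g a x y + ∑ x ∈ s, ∑ y ∈ s, ∑ z ∈ s, g x y z := by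
    rw [sum_congr rfl e1, sum_add_distrib, sum_add_distrib, mul_sum]
    simp
  have e4 : ∑ u ∈ s, (3 * X o (insert a s) u ^ 2 - 1
        + 3 * ∑ v ∈ later o (insert a s) u, ∑ w ∈ later o (insert a s) u, g u v w)
      = ∑ u ∈ s, (3 * X o s u ^ 2 - 1 + 3 * ∑ v ∈ later o s u, ∑ w ∈ later o s u, g u v w) :=
    sum_congr rfl (fun u hu => by unfold X; rw [later_insert_of_mem hmin hu])
  have e5 : X o (insert a s) a = (s.card : ℝ) + 1 := by
    unfold X; rw [later_insert_self hmin]
  rw [sum_insert ha, e2, e3, sum_insert ha, e4, e5, ← ih, card_insert_of_notMem ha,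
    later_insert_self hmin]
  push_cast
  ring

/-- the in-block inequality -/
theorem block_ineq {g : V → V → V → ℝ} (hg : Wt g) {κ : Type*} [DecidableEq κ]
    (o : V → ℕ) (f : V → κ) (s : Finset V) (inj : Set.InjOn o (s : Set V))
    (tri : ∀ u ∈ s, ∀ v ∈ s, ∀ w ∈ s, o u < o v → o v < o w → f u = f v → g u v w = 1) :
    ∑ u ∈ s, (3 * X o s u ^ 2 - 1 - 3 / 2 * (2 * X o s u - 1))
      + 3 / 2 * ∑ u ∈ s, ∑ v ∈ s, (if f u = f v then 2 * min (X o s u) (X o s v) - 1 else 0)
      ≤ (s.card : ℝ) ^ 3 + ∑ x ∈ s, ∑ y ∈ s, ∑ z ∈ s, g x y z := by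
  have hanti : ∀ u v, o u < o v → X o s v ≤ X o s u := by
    intro u v h
    unfold X
    have h1 : (later o s v).card ≤ (later o s u).card := by
      apply card_le_card
      intro x hx
      simp only [later, mem_filter] at hx ⊢
      exact ⟨hx.1, lt_trans h hx.2⟩
    have h2 : ((later o s v).card : ℝ) ≤ ((later o s u).card : ℝ) := Nat.cast_le.2 h1
    linarith
  have h1 : ∑ u ∈ s, ∑ v ∈ s, (if f u = f v then 2 * min (X o s u) (X o s v) - 1 else 0)
      = ∑ u ∈ s, ((2 * X o s u - 1)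
        + 2 * ∑ v ∈ later o s u, (if f u = f v then 2 * X o s v - 1 else 0)) := by
    rw [pair_sum o s inj _ (fun x y => by
      by_cases h : f x = f y
      · rw [if_pos h, if_pos h.symm, min_comm]
      · rw [if_neg h, if_neg (fun h' => h h'.symm)])]
    refine sum_congr rfl (fun u _ => ?_)
    rw [if_pos rfl, min_self]
    congr 2
    refine sum_congr rfl (fun v hv => ?_)
    rw [min_eq_right (hanti u v (mem_filter.1 hv).2)]
  have h2 : ∀ u ∈ s, ∑ v ∈ later o s u, (if f u = f v then 2 * X o s v - 1 else 0)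
      ≤ ∑ v ∈ later o s u, ∑ w ∈ later o s u, g u v w := by
    intro u hu
    rw [pair_sum o (later o s u) (inj.mono (by
      intro x hx; exact mem_coe.2 (mem_filter.1 (mem_coe.1 hx)).1)) (fun v w => g u v w)
      (fun v w => hg.s23 u v w)]
    refine sum_le_sum (fun v hv => ?_)
    have hv' := mem_filter.1 hv
    rw [later_later hv'.2, hg.deg' u v]
    by_cases hf : f u = f v
    · rw [if_pos hf]
      have h3 : ∑ w ∈ later o s v, g u v w = ((later o s v).card : ℝ) := by
        have h4 : ∀ w ∈ later o s v, g u v w = 1 := fun w hw =>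
          tri u hu v hv'.1 w (mem_filter.1 hw).1 hv'.2 (mem_filter.1 hw).2 hf
        rw [sum_congr rfl h4]
        simp
      rw [h3]
      unfold X
      linarith
    · rw [if_neg hf]
      have h3 : 0 ≤ ∑ w ∈ later o s v, g u v w := sum_nonneg (fun w _ => hg.nn u v w)
      linarith
  rw [triple_sum hg o s inj, h1, mul_sum, ← sum_add_distrib]
  refine sum_le_sum (fun u hu => ?_)
  have := h2 u hu
  linarith

end H76AS
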