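import Mathlib

/-!
# The squares lemma in exact discrete form

`Psi X δ s = δ³ + ∑_{v∈s} (3X_v² - 1 - 3δ(2X_v - 1)) + 3 ∑_{pairs} (2 min(X_v,X_w) - 1)`, the sum
over unordered pairs of distinct elements.  Removing an element with the largest `X` gives
`Psi X δ s = 3 (X_v - δ)² + Psi X (δ - 1) (s - v)`.
-/

namespace H76AS

open Finset

variable {ι : Type*}

/-- the quadratic form of one colour -/
noncomputable def Psi (X : ι → ℝ) (δ : ℝ) (s : Finset ι) : ℝ :=
  δ ^ 3 + ∑ v ∈ s, (3 * X v ^ 2 - 1 - (3 * δ + 3 / 2) * (2 * X v - 1))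
    + 3 / 2 * ∑ v ∈ s, ∑ w ∈ s, (2 * min (X v) (X w) - 1)

theorem Psi_empty (X : ι → ℝ) (δ : ℝ) : Psi X δ ∅ = δ ^ 3 := by simp [Psi]

theorem Psi_insert [DecidableEq ι] (X : ι → ℝ) (δ : ℝ) (s : Finset ι) (a : ι) (ha : a ∉ s)
    (hX : ∀ v ∈ s, X v ≤ X a) :
    Psi X δ (insert a s) = 3 * (X a - δ) ^ 2 + Psi X (δ - 1) s := by
  have h1 : ∑ v ∈ s, (2 * min (X v) (X a) - 1) = ∑ v ∈ s, (2 * X v - 1) :=
    sum_congr rfl (fun v hv => by rw [min_eq_left (hX v hv)])
  have h2 : ∑ v ∈ s, (2 * min (X a) (X v) - 1) = ∑ v ∈ s, (2 * X v - 1) :=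
    sum_congr rfl (fun v hv => by rw [min_eq_right (hX v hv)])
  have h3 : ∑ v ∈ s, (3 * X v ^ 2 - 1 - (3 * (δ - 1) + 3 / 2) * (2 * X v - 1))
      = ∑ v ∈ s, (3 * X v ^ 2 - 1 - (3 * δ + 3 / 2) * (2 * X v - 1))
        + 3 * ∑ v ∈ s, (2 * X v - 1) := by
    rw [mul_sum, ← sum_add_distrib]
    refine sum_congr rfl (fun v _ => by ring)
  unfold Psi
  rw [h3, sum_insert ha, sum_insert ha, sum_insert ha, h2, min_self]
  have h4 : ∑ v ∈ s, ∑ w ∈ insert a s, (2 * min (X v) (X w) - 1)
      = ∑ v ∈ s, (2 * X v - 1) + ∑ v ∈ s, ∑ w ∈ s, (2 * min (X v) (X w) - 1) := by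
    rw [← h1, ← sum_add_distrib]
    refine sum_congr rfl (fun v _ => by rw [sum_insert ha])
  rw [h4]
  ring

theorem Psi_bound (D : ℝ) (hD : 1 ≤ D) (X : ι → ℝ) (s : Finset ι) :
    (∀ v ∈ s, 1 ≤ X v) → ∀ δ : ℝ, δ ≤ D →
      (min δ 0) ^ 3 + ∑ v ∈ s, 3 * (max (X v - D) 0) ^ 2 ≤ Psi X δ s := by
  classical
  induction s using Finset.strongInduction with
  | H s ih =>
    intro hX δ hδ
    rcases le_or_gt δ 0 with h0 | h0
    · -- direct
      have e1 : ∑ v ∈ s, 3 * (max (X v - D) 0) ^ 2 ≤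
          ∑ v ∈ s, (3 * X v ^ 2 - 1 - 3 * δ * (2 * X v - 1)) := by
        refine sum_le_sum (fun v hv => ?_)
        have h1 := hX v hv
        have h2 : 0 ≤ -δ * (2 * X v - 1) := mul_nonneg (by linarith) (by linarith)
        rcases le_or_gt (X v - D) 0 with h3 | h3
        · rw [max_eq_right h3]; nlinarith
        · rw [max_eq_left h3.le]; nlinarith
      have e2 : ∑ v ∈ s, (2 * X v - 1) ≤ ∑ v ∈ s, ∑ w ∈ s, (2 * min (X v) (X w) - 1) := by
        refine sum_le_sum (fun v hv => ?_)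
        have h3 : ∀ w ∈ s, 0 ≤ 2 * min (X v) (X w) - 1 := by
          intro w hw
          have := le_min (hX v hv) (hX w hw)
          linarith
        have h4 := single_le_sum h3 hv
        rwa [min_self] at h4
      have e3 : ∑ v ∈ s, (3 * X v ^ 2 - 1 - (3 * δ + 3 / 2) * (2 * X v - 1))
          = ∑ v ∈ s, (3 * X v ^ 2 - 1 - 3 * δ * (2 * X v - 1)) - 3 / 2 * ∑ v ∈ s, (2 * X v - 1) := by
        rw [mul_sum, ← sum_sub_distrib]
        refine sum_congr rfl (fun v _ => by ring)
      unfold Psi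
      rw [e3, min_eq_left h0]
      linarith
    · rcases s.eq_empty_or_nonempty with rfl | hne
      · rw [Psi_empty, min_eq_right h0.le]
        simp
        positivity
      · obtain ⟨a, ha, hmax⟩ := exists_max_image s X hne
        have h1 := ih (s.erase a) (erase_ssubset ha) (fun v hv => hX v (mem_of_mem_erase hv))
          (δ - 1) (by linarith)
        have h2 := Psi_insert X δ (s.erase a) a (notMem_erase a s)
          (fun v hv => hmax v (mem_of_mem_erase hv))
        rw [insert_erase ha] at h2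
        rw [h2, ← add_sum_erase s _ ha, min_eq_right h0.le]
        have ha1 := hX a ha
        have key : 3 * (max (X a - D) 0) ^ 2 ≤ 3 * (X a - δ) ^ 2 + (min (δ - 1) 0) ^ 3 := by
          rcases le_or_gt (δ - 1) 0 with h3 | h3
          · rw [min_eq_left h3]
            rcases le_or_gt (X a - D) 0 with h4 | h4
            · rw [max_eq_right h4]
              nlinarith [mul_nonneg (sub_nonneg.2 ha1) (sub_nonneg.2 ha1),
                mul_nonneg (sub_nonneg.2 ha1) (neg_nonneg.2 h3),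
                mul_nonneg (neg_nonneg.2 h3) (neg_nonneg.2 h3),
                mul_nonneg (mul_nonneg (neg_nonneg.2 h3) (neg_nonneg.2 h3)) h0.le]
            · rw [max_eq_left h4.le]
              nlinarith [mul_nonneg (sub_nonneg.2 hδ) h4.le,
                mul_nonneg (sub_nonneg.2 hD) (neg_nonneg.2 h3),
                mul_nonneg (neg_nonneg.2 h3) (neg_nonneg.2 h3),
                mul_nonneg (sub_nonneg.2 hD) (sub_nonneg.2 hD),
                mul_nonneg (mul_nonneg (neg_nonneg.2 h3) (neg_nonneg.2 h3)) h0.le]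
          · rw [min_eq_right h3.le]
            rcases le_or_gt (X a - D) 0 with h4 | h4
            · rw [max_eq_right h4]; nlinarith [sq_nonneg (X a - δ)]
            · rw [max_eq_left h4.le]; nlinarith [mul_nonneg (sub_nonneg.2 hδ) h4.le]
        linarith

/-- the surplus of one block: the values `1, …, b` -/
theorem surplus (D : ℝ) (hD : 1 ≤ D) (b : ℕ) :
    (max ((b : ℝ) - D) 0) ^ 3 ≤ ∑ x ∈ Finset.range b, 3 * (max (((x : ℝ) + 1) - D) 0) ^ 2 := by
  induction b with
  | zero => simp; rw [max_eq_right (by linarith)]; norm_num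
  | succ b ih =>
    rw [sum_range_succ]
    push_cast
    have key : (max ((b : ℝ) + 1 - D) 0) ^ 3 ≤
        (max ((b : ℝ) - D) 0) ^ 3 + 3 * (max ((b : ℝ) + 1 - D) 0) ^ 2 := by
      rcases le_or_gt ((b : ℝ) + 1 - D) 0 with h | h
      · rw [max_eq_right h, max_eq_right (by linarith)]; norm_num
      · rw [max_eq_left h.le]
        rcases le_or_gt ((b : ℝ) - D) 0 with h' | h'
        · rw [max_eq_right h']
          nlinarith [sq_nonneg ((b : ℝ) + 1 - D), mul_nonneg h.le (mul_nonneg h.le h.le)]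
        · rw [max_eq_left h'.le]; nlinarith
    linarith

end H76AS
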